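import Mathlib

/-!
# A bipartite graph whose fully active cop number is smaller than its cop number

The graph has 17 vertices and 29 edges.  Two cops win the fully active game on it, but they do not win
the usual (passive) game of Cops and Robbers.
-/

set_option autoImplicit false

namespace Pool.Agent.Results.MP_1e2692_co.BipartiteSmaller

/-- `M x y` means that a player may go from `x` to `y`.  The cops are at `c` and have to move, the
robber is at `r`.  The cops can force a capture in finitely many rounds: they have a joint move to `d`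
such that they capture the robber by this move, or else every move of the robber leads to a vertex with
a cop or to a position which is won for the cops. -/
inductive Wins {V : Type} (M : V → V → Prop) {k : ℕ} : (Fin k → V) → V → Prop
  | step (c : Fin k → V) (r : V) (d : Fin k → V) (hd : ∀ i, M (c i) (d i))
      (h : ∀ w, (∀ i, d i ≠ r) → M r w → (∀ i, d i ≠ w) → Wins M d w) : Wins M c r

/-- `k` cops have a winning strategy in the game in which both sides move according to `M`. -/
def CopsWin {V : Type} (M : V → V → Prop) (k : ℕ) : Prop :=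
  ∃ c : Fin k → V, ∀ r : V, (∀ i, c i ≠ r) → Wins M c r

/-- The moves of the passive game: stay put or go to an adjacent vertex. -/
def Passive {V : Type} (G : SimpleGraph V) (x y : V) : Prop := y = x ∨ G.Adj x y

/-- The moves of the fully active game: go to an adjacent vertex. -/
def Active {V : Type} (G : SimpleGraph V) (x y : V) : Prop := G.Adj x y

/-- The cop number `c(G)`. -/
noncomputable def cop {V : Type} (G : SimpleGraph V) : ℕ := sInf {k | CopsWin (Passive G) k}

/-- The fully active cop number `c'(G)`. -/
noncomputable def acop {V : Type} (G : SimpleGraph V) : ℕ := sInf {k | CopsWin (Active G) k}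

/-- The edges of the graph. -/
def edges : List (Fin 17 × Fin 17) := 
  [(0, 8), (3, 8), (5, 8), (0, 9), (4, 9), (6, 9), (7, 9), (1, 10), (5, 10), (7, 10), (0, 11),
   (1, 11), (2, 11), (2, 12), (3, 12), (6, 12), (7, 12), (1, 13), (3, 13), (4, 13), (2, 14),
   (4, 14), (5, 14), (2, 15), (4, 15), (6, 15), (0, 16), (2, 16), (6, 16)]

/-- The adjacency. -/
def adj (i j : Fin 17) : Bool := edges.contains (i, j) || edges.contains (j, i)

/-- The graph. -/
def G : SimpleGraph (Fin 17) where
  Adj i j := adj i j = true
  symm := ⟨by decide⟩
  loopless := ⟨by decide⟩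

/-- The number of a position with two cops. -/
def idx (a b r : Fin 17) : ℕ := (a.val * 17 + b.val) * 17 + r.val

/-- The winning strategy in the fully active game: number of the position, bound for the number of
rounds, move of the first cop, move of the second cop. -/
def tbl : List (ℕ × ℕ × ℕ × ℕ) :=
  [(178, 1, 8, 1), (184, 4, 9, 5), (442, 1, 10, 0), (444, 3, 10, 6), (446, 1, 10, 4),
   (447, 5, 10, 0), (449, 1, 10, 7), (561, 1, 10, 0), (563, 1, 10, 2), (731, 1, 11, 0),
   (732, 7, 11, 4), (734, 7, 12, 0), (735, 1, 11, 4), (736, 7, 11, 0), (737, 1, 11, 6),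
   (738, 1, 11, 7), (739, 6, 12, 0), (741, 6, 11, 7), (742, 1, 11, 0), (743, 1, 12, 0),
   (744, 6, 12, 4), (745, 1, 14, 0), (746, 1, 15, 0), (747, 1, 16, 0), (1021, 5, 13, 7),
   (1024, 1, 8, 4), (1600, 3, 10, 6), (1602, 1, 8, 4), (1702, 1, 8, 2), (1704, 1, 8, 4),
   (1915, 2, 16, 1), (1916, 1, 12, 1), (1918, 2, 15, 5), (1919, 1, 15, 1), (1920, 1, 16, 1),
   (2169, 1, 10, 0), (2173, 4, 9, 5), (2254, 1, 10, 1), (2255, 4, 9, 1), (2618, 1, 0, 10),
   (2620, 3, 6, 10), (2688, 3, 6, 10), (2690, 1, 4, 8), (2898, 1, 1, 8), (2904, 4, 5, 9),
   (3003, 2, 1, 16), (3004, 1, 1, 12), (3006, 2, 5, 15), (3007, 1, 1, 15), (3008, 1, 1, 16),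
   (3187, 1, 0, 8), (3189, 6, 1, 9), (3193, 6, 1, 9), (3257, 6, 1, 9), (3260, 1, 0, 13),
   (3299, 1, 1, 9), (3303, 5, 0, 10), (3471, 1, 3, 8), (3473, 5, 7, 8), (3476, 1, 2, 8),
   (3481, 6, 3, 9), (3537, 5, 7, 13), (3539, 1, 3, 9), (3886, 1, 1, 10), (3887, 4, 1, 9),
   (4422, 1, 2, 8), (4424, 1, 4, 8), (4641, 1, 0, 10), (4643, 1, 2, 10)]

/-- The entry of a position. -/
def entry (a b r : Fin 17) : ℕ × ℕ × ℕ × ℕ :=
  ((tbl.find? fun e => e.1 == idx a b r).getD (0, 0, 0, 0))

/-- The rank of a position; `0` for the positions which do not occur. -/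
def rk (a b r : Fin 17) : ℕ := (entry a b r).2.1

/-- The move of the first cop. -/
def mv0 (a b r : Fin 17) : Fin 17 := ⟨(entry a b r).2.2.1 % 17, Nat.mod_lt _ (by norm_num)⟩

/-- The move of the second cop. -/
def mv1 (a b r : Fin 17) : Fin 17 := ⟨(entry a b r).2.2.2 % 17, Nat.mod_lt _ (by norm_num)⟩

/-- All vertices. -/
def vs : List (Fin 17) := [0, 1, 2, 3, 4, 5, 6, 7, 8, 9, 10, 11, 12, 13, 14, 15, 16]

lemma mem_vs (x : Fin 17) : x ∈ vs := by revert x; decide

/-- The check of the strategy in the fully active game. -/
def checkA : Bool :=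
  vs.all fun a => vs.all fun b => vs.all fun r =>
    rk a b r == 0 ||
      (adj a (mv0 a b r) && adj b (mv1 a b r) &&
        (mv0 a b r == r || mv1 a b r == r ||
          vs.all fun w => !adj r w || mv0 a b r == w || mv1 a b r == w ||
            (0 < rk (mv0 a b r) (mv1 a b r) w && rk (mv0 a b r) (mv1 a b r) w < rk a b r)))

lemma checkA_eq : checkA = true := by decide +kernel

/-- The table of the positions of the passive game which are safe for the robber. -/
def safe (a b r : Fin 17) : Bool := Nat.testBit 45590696926225783628960915749729701581180545011807616932101832147532686679389622936426080025041472153785153326517485194776183493029063070783620470864447013299501890459607831849073056807002770339130553599874842015753649500080294761950756458884693312661806134409965396800855158784606498433497208570289039486250108216249296777716946180912943582648224993020510400047590661514935627350182321698480342482898603623630641001905707073761281067997489054388324655892746597741176520551208165522885431960300725978718436573215976209782197491654340697807333793080111253612046082093584670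4980157912700126166987646224311161330893179776467696492203117525765978708815767909653806359643723619575360705646221082626945506429119784328605447339310733145883106938918724376651020107552807995122880440152073813360167653066474426401638520533616057671472749622458439163090728816994102320363259091722088320865089543925444856644669413049802347082422722920921333319613482778820364598408075578498012880597025441844150887349351701271154347367939607714161646000012213781124167969318686007586659249314930638922387142885077597718871520306024463749851248187992671845450584430621310048445379903634844568016363465569105081121241633856953855721610265816817164076499199639722015399782719600048282055897946195404156566900975861168418953029075406436566851915361191208704778169260106274160821597068409042145479871560392092794835179507353823200374634724298653475953307830080952253325740030534363311537632124603736391503344894 (idx a b r)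

/-- A passive move. -/
def pas (a d : Fin 17) : Bool := d == a || adj a d

/-- The check of the safe positions. -/
def checkP : Bool :=
  vs.all fun a => vs.all fun b => vs.all fun r => !safe a b r ||
    vs.all fun d => !pas a d || vs.all fun e => !pas b e ||
      (d != r && e != r && vs.any fun w => pas r w && d != w && e != w && safe d e w)

lemma checkP_eq : checkP = true := by decide +kernel

lemma wins_of_rk : ∀ (n : ℕ) (c : Fin 2 → Fin 17) (r : Fin 17), rk (c 0) (c 1) r = n → 0 < n →
    Wins (Active G) c r := by
  intro n
  induction n using Nat.strong_induction_on with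
  | _ n ih =>
    intro c r hn h0
    have h := checkA_eq
    simp only [checkA, List.all_eq_true, Bool.or_eq_true, Bool.and_eq_true, beq_iff_eq,
      Bool.not_eq_true', decide_eq_true_eq] at h
    have h1 := h (c 0) (mem_vs _) (c 1) (mem_vs _) r (mem_vs _)
    rcases h1 with h1 | ⟨⟨hm0, hm1⟩, hw⟩
    · omega
    refine Wins.step c r ![mv0 (c 0) (c 1) r, mv1 (c 0) (c 1) r] ?_ ?_
    · intro i
      fin_cases i
      · exact hm0
      · exact hm1
    · intro w hr hrw hc
      have hr0 : mv0 (c 0) (c 1) r ≠ r := hr 0
      have hr1 : mv1 (c 0) (c 1) r ≠ r := hr 1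
      have hw0 : mv0 (c 0) (c 1) r ≠ w := hc 0
      have hw1 : mv1 (c 0) (c 1) r ≠ w := hc 1
      rcases hw with (h2 | h2) | hw
      · exact absurd h2 hr0
      · exact absurd h2 hr1
      rcases hw w (mem_vs w) with ((h2 | h2) | h2) | ⟨h2, h3⟩
      · exfalso
        have : adj r w = true := hrw
        simp [this] at h2
      · exact absurd h2 hw0
      · exact absurd h2 hw1
      · exact ih _ (by rw [← hn]; exact h3) ![mv0 (c 0) (c 1) r, mv1 (c 0) (c 1) r] w rfl h2

lemma pas_of {a d : Fin 17} (h : Passive G a d) : pas a d = true := by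
  rcases h with rfl | h
  · simp [pas]
  · have h' : adj a d = true := h
    simp [pas, h']

lemma of_pas {a d : Fin 17} (h : pas a d = true) : Passive G a d := by
  simp only [pas, Bool.or_eq_true, beq_iff_eq] at h
  exact h

lemma not_wins {c : Fin 2 → Fin 17} {r : Fin 17} (h : Wins (Passive G) c r) :
    safe (c 0) (c 1) r = false := by
  induction h with
  | step c r d hd _ ih =>
    by_contra hs
    rw [Bool.not_eq_false] at hs
    have h := checkP_eq
    simp only [checkP, List.all_eq_true, List.any_eq_true, Bool.or_eq_true, Bool.and_eq_true,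
      bne_iff_ne, Bool.not_eq_true'] at h
    rcases h (c 0) (mem_vs _) (c 1) (mem_vs _) r (mem_vs _) with h | h
    · rw [h] at hs
      exact Bool.noConfusion hs
    rcases h (d 0) (mem_vs _) with h | h
    · rw [pas_of (hd 0)] at h
      exact Bool.noConfusion h
    rcases h (d 1) (mem_vs _) with h | ⟨⟨h0, h1⟩, w, -, ⟨⟨hw, hw0⟩, hw1⟩, hsafe⟩
    · rw [pas_of (hd 1)] at h
      exact Bool.noConfusion h
    · have h2 := ih w (by
        intro i
        fin_cases i
        · exact h0
        · exact h1) (of_pas hw) (by
        intro i
        fin_cases i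
        · exact hw0
        · exact hw1)
      rw [hsafe] at h2
      exact Bool.noConfusion h2

lemma not_wins_zero {V : Type} {M : V → V → Prop} (hM : ∀ x, ∃ y, M x y) {c : Fin 0 → V} {r : V}
    (h : Wins M c r) : False := by
  induction h with
  | step c r d hd _ ih =>
    obtain ⟨w, hw⟩ := hM r
    exact ih w (fun i => i.elim0) hw (fun i => i.elim0)

lemma wins_comp {V : Type} {M : V → V → Prop} {k m : ℕ} (f : Fin m → Fin k) {c : Fin k → V}
    {r : V} (h : Wins M c r) (hf : Function.Surjective f) : Wins M (c ∘ f) r := by
  induction h with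
  | step c r d hd _ ih =>
    refine Wins.step _ r (d ∘ f) (fun i => hd (f i)) fun w hr hw hc => ih w ?_ hw ?_
    · intro i
      obtain ⟨j, rfl⟩ := hf i
      exact hr j
    · intro i
      obtain ⟨j, rfl⟩ := hf i
      exact hc j

lemma copsWin_two_of_one {V : Type} {M : V → V → Prop} (h : CopsWin M 1) : CopsWin M 2 := by
  obtain ⟨c, hc⟩ := h
  refine ⟨c ∘ fun _ => 0, fun r hr => wins_comp _ (hc r fun i => ?_) ?_⟩
  · rw [Subsingleton.elim i 0]
    exact hr 0
  · intro i
    exact ⟨0, Subsingleton.elim _ _⟩

/-- In the passive game, the robber has a safe start for every start of two cops. -/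
lemma start_P : ∀ a b : Fin 17, ∃ r : Fin 17, a ≠ r ∧ b ≠ r ∧ safe a b r = true := by
  decide +kernel

lemma not_copsWin_two : ¬ CopsWin (Passive G) 2 := by
  rintro ⟨c, hc⟩
  obtain ⟨r, h0, h1, h2⟩ := start_P (c 0) (c 1)
  have := not_wins (hc r (by
    intro i
    fin_cases i
    · exact h0
    · exact h1))
  rw [h2] at this
  exact Bool.noConfusion this

lemma copsWin_A : CopsWin (Active G) 2 := by
  refine ⟨![2, 9], fun r hr => wins_of_rk _ _ r rfl ?_⟩
  have h0 : 2 ≠ r := hr 0
  have h1 : 9 ≠ r := hr 1
  revert h0 h1
  revert r
  decide +kernel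

lemma not_copsWin_zero {V : Type} [Nonempty V] {M : V → V → Prop} (hM : ∀ x, ∃ y, M x y) :
    ¬ CopsWin M 0 := by
  rintro ⟨c, hc⟩
  exact not_wins_zero hM (hc (Classical.arbitrary V) fun i => i.elim0)

lemma copsWin_all (M : Fin 17 → Fin 17 → Prop) : CopsWin M 17 :=
  ⟨id, fun r hr => absurd rfl (hr r)⟩

lemma acop_G : acop G ≤ 2 := Nat.sInf_le copsWin_A

lemma cop_G : 3 ≤ cop G := by
  have h : sInf {k | CopsWin (Passive G) k} ∈ {k | CopsWin (Passive G) k} :=
    Nat.sInf_mem ⟨17, copsWin_all _⟩
  have h2 : CopsWin (Passive G) (cop G) := h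
  by_contra hlt
  rw [not_le] at hlt
  interval_cases hk : cop G
  · exact absurd h2 (not_copsWin_zero fun x => ⟨x, Or.inl rfl⟩)
  · exact not_copsWin_two (copsWin_two_of_one h2)
  · exact not_copsWin_two h2

/-- A spanning tree: parents of the vertices other than `0`. -/
def par (v : Fin 17) : Fin 17 := ![0, 11, 11, 8, 9, 8, 9, 9, 0, 0, 5, 0, 3, 3, 5, 4, 0] v

/-- The depths in the spanning tree. -/
def dep (v : Fin 17) : ℕ := ![0, 2, 2, 2, 2, 2, 2, 2, 1, 1, 3, 1, 3, 3, 3, 3, 1] v

lemma par_check : ∀ v : Fin 17, v = 0 ∨ (adj (par v) v = true ∧ dep (par v) < dep v) := by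
  decide +kernel

lemma G_connected : G.Connected := by
  have h0 : ∀ (n : ℕ) (v : Fin 17), dep v = n → G.Reachable 0 v := by
    intro n
    induction n using Nat.strong_induction_on with
    | _ n ih =>
      intro v hv
      rcases par_check v with rfl | ⟨h1, h2⟩
      · exact SimpleGraph.Reachable.refl _
      · exact (ih _ (by rw [← hv]; exact h2) (par v) rfl).trans
          (SimpleGraph.Adj.reachable (show G.Adj (par v) v from h1))
  exact SimpleGraph.connected_iff_exists_forall_reachable _ |>.2 ⟨0, fun v => h0 _ v rfl⟩

lemma side_check : ∀ v w : Fin 17, adj v w = true → decide (v.val < 8) ≠ decide (w.val < 8) := by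
  decide +kernel

lemma G_bipartite : G.Colorable 2 := by
  let C : G.Coloring Bool := SimpleGraph.Coloring.mk (fun v => decide (v.val < 8))
    (fun {v w} h => side_check v w h)
  have := C.colorable
  simpa using this

/-- There is a connected bipartite graph `G` with `c'(G) ≤ 2` and `c(G) ≥ 3`. -/
theorem result : ∃ G : SimpleGraph (Fin 17), G.Connected ∧ G.Colorable 2 ∧
    acop G ≤ 2 ∧ 3 ≤ cop G :=
  ⟨G, G_connected, G_bipartite, acop_G, cop_G⟩

end Pool.Agent.Results.MP_1e2692_co.BipartiteSmaller
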